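import Pool.Agent.H86.KZ.S

/-!
# KZ: basic properties of the action on dual polynomials
-/

set_option autoImplicit false

namespace Pool.KZ

open MvPolynomial Pool.EGH

section

variable {K : Type} [Field K] {M : Type} [AddCommGroup M] [Module K M] {k : ℕ}

theorem xe_apply (y : ℕ → Fin k → M →ₗ[K] M) (j : ℕ) (g : EE K M k)
    (h : MvPolynomial (Fin k) K) : xe y j g h = ∑ i, y j i (g (X i * h)) := by
  change (∑ i, (y j i).comp (ct (X i) g)) h = _
  rw [LinearMap.sum_apply]
  rfl

theorem ct_apply (w : MvPolynomial (Fin k) K) (g : EE K M k) (h : MvPolynomial (Fin k) K) :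
    ct w g h = g (w * h) := rfl

theorem Eg_hom {G : Submodule K M} {u : ℤ} {g : EE K M k} (hg : g ∈ Eg (k := k) G u)
    {p : MvPolynomial (Fin k) K} {v : ℕ} (hp : p.IsHomogeneous v) (hv : (v : ℤ) ≠ u) :
    g p = 0 := by
  have h := (hg p).2 v hv
  rwa [homogeneousComponent_eq_self hp] at h

end

theorem t_xeb : XEBStmt := by
  intro K M _ _ _ G k y h1 h2
  refine ⟨?_, ?_, ?_, ?_⟩
  · intro i j g
    refine LinearMap.ext fun h => ?_
    simp only [xe_apply, map_sum]
    rw [Finset.sum_comm]
    refine Finset.sum_congr rfl fun a _ => Finset.sum_congr rfl fun b _ => ?_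
    rw [h2, mul_left_comm]
  · intro ν j s g hg h
    refine ⟨?_, ?_⟩
    · rw [xe_apply]
      exact Submodule.sum_mem _ fun i _ => h1 _ _ _ _ (hg _).1
    · intro v hv
      rw [xe_apply]
      refine Finset.sum_eq_zero fun i _ => ?_
      rw [Eg_hom hg ((isHomogeneous_X K i).mul (homogeneousComponent_isHomogeneous v h)) ?_,
        map_zero]
      intro h3
      apply hv
      push_cast at h3
      linarith
  · intro w j g
    refine LinearMap.ext fun h => ?_
    rw [ct_apply, xe_apply, xe_apply]
    refine Finset.sum_congr rfl fun i _ => ?_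
    rw [ct_apply, mul_left_comm]
  · intro w hw ν s g hg h
    refine ⟨?_, ?_⟩
    · rw [ct_apply]
      exact (hg _).1
    · intro v hv
      rw [ct_apply]
      refine Eg_hom hg (((mem_homogeneousSubmodule 1 w).1 hw).mul
        (homogeneousComponent_isHomogeneous v h)) ?_
      intro h3
      apply hv
      push_cast at h3
      linarith

end Pool.KZ
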